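import Pool.Agent.Lib.MP_24a1b5_co.InQ

/-!
# MP_24a1b5: the first two fifths of the independence sequence of a forest are nondecreasing
-/

set_option autoImplicit false
open N36365310

namespace Pool.Agent.Results.MP_24a1b5_co.FirstTwoFifths

/-- For every forest `G` with `n` vertices and independence number `α`, and for every `k`,
`(18 α - 25 k) i_k ≤ 20 (k + 1) i_{k+1}` and `(n - 3 k) i_k ≤ (k + 1) i_{k+1}`; hence
`i_k ≤ i_{k+1}` whenever `45 k + 20 ≤ 18 α` or `4 k + 1 ≤ n`. -/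
theorem result {V : Type*} [Fintype V] (G : SimpleGraph V) (hG : G.IsAcyclic) (k : ℕ) :
    (18 * (G.indepNum : ℤ) - 25 * k) * indepSeq G k ≤ 20 * (k + 1) * indepSeq G (k + 1) ∧
    ((Fintype.card V : ℤ) - 3 * k) * indepSeq G k ≤ (k + 1) * indepSeq G (k + 1) ∧
    (45 * k + 20 ≤ 18 * G.indepNum ∨ 4 * k + 1 ≤ Fintype.card V →
      indepSeq G k ≤ indepSeq G (k + 1)) :=
  Pool.Agent.Lib.MP_24a1b5_co.In.main' G hG k

end Pool.Agent.Results.MP_24a1b5_co.FirstTwoFifths
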